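import Pool.Agent.H33.Equistar

set_option autoImplicit false

namespace Pool.Agent.Results.MP_59918e_co.NotWeaklyCIS
open Pool.Agent.H33.Equistar

/-- `S` is an inclusion-maximal stable set. -/
def MaxStable {n : ℕ} (G : SimpleGraph (Fin n)) (S : Finset (Fin n)) : Prop :=
  Maximal (fun T : Finset (Fin n) => G.IsIndepSet (T : Set (Fin n))) S

/-- `S` is an inclusion-maximal clique. -/
def MaxClique {n : ℕ} (G : SimpleGraph (Fin n)) (S : Finset (Fin n)) : Prop :=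
  Maximal (fun T : Finset (Fin n) => G.IsClique (T : Set (Fin n))) S

def Equistable {n : ℕ} (G : SimpleGraph (Fin n)) : Prop :=
  ∃ φ : Fin n → ℝ, (∀ v, 0 ≤ φ v) ∧ ∀ S : Finset (Fin n), MaxStable G S ↔ ∑ v ∈ S, φ v = 1

def WeaklyCIS {n : ℕ} (G : SimpleGraph (Fin n)) : Prop :=
  ∃ 𝒞 𝒮 : Set (Finset (Fin n)), (∀ A ∈ 𝒞, MaxClique G A) ∧ (∀ B ∈ 𝒮, MaxStable G B) ∧
    (∀ u v, G.Adj u v → ∃ A ∈ 𝒞, u ∈ A ∧ v ∈ A) ∧
    (∀ u v, u ≠ v → ¬ G.Adj u v → ∃ B ∈ 𝒮, u ∈ B ∧ v ∈ B) ∧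
    ∀ A ∈ 𝒞, ∀ B ∈ 𝒮, (A ∩ B).Nonempty

theorem result : ∃ (n : ℕ) (G : SimpleGraph (Fin n)), Equistable G ∧ ¬ WeaklyCIS G := by
  refine ⟨14, G, ⟨fun i => (w i : ℝ) / 116, fun i => by positivity, fun S => ?_⟩, ?_⟩
  · rw [MaxStable, max_iff, ← sum_iff, ← Finset.sum_div, div_eq_one_iff_eq (by norm_num)]
    exact_mod_cast Iff.rfl
  · rintro ⟨C, S, hC, hS, h1, h2, h3⟩
    obtain ⟨A, hA, -⟩ := h1 0 4 (show dis 0 4 = true by decide +kernel)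
    refine no_perfect A (hC A hA).prop (fun v => ?_)
    obtain ⟨i, j, hij, hi, hj, hu⟩ := star_two v
    obtain ⟨B, hB, mi, mj⟩ := h2 i j hij (fun h => share v i j hi hj h)
    obtain ⟨u, rfl⟩ := (max_iff B).1 (hS B hB)
    rw [← hu u (by simpa [Pool.Agent.H33.Equistar.star] using mi) (by simpa [Pool.Agent.H33.Equistar.star] using mj)]
    exact h3 A hA _ hB

end Pool.Agent.Results.MP_59918e_co.NotWeaklyCIS
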